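import Pool.Agent.TH389.BW.Proc
import Pool.Agent.TH389.BB.Main

/-! Chromatic polynomials of bipartite plane graphs of bounded width. -/

set_option autoImplicit false

namespace Pool.Agent.TH389.BW

open Pool.Agent.H207R2.BL Pool.Agent.H110R3.BP Pool.Agent.H110R3.BP2 Polynomial

theorem main_width {V : Type} [Fintype V] (G : SimpleGraph V) (hG : G.Colorable 2)
    (f : V → ℝ × ℝ) (hf : IsStraight G f) (hx : Function.Injective (fun v => (f v).1))
    (k : ℕ) (hk2 : 2 ≤ k)
    (hk : ∀ t : ℝ, {e : V × V | G.Adj e.1 e.2 ∧ (f e.1).1 < t ∧ t < (f e.2).1}.ncard ≤ k)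
    (p : ℝ[X]) (hp : IsChrom G p) (q : ℝ) (hq : 4 * Real.cos (Real.pi / (k + 2)) ^ 2 ≤ q) :
    0 < p.eval q := by
  classical
  have hpi := Real.pi_pos
  have hk4 : (4 : ℝ) ≤ (k : ℝ) + 2 := by
    have : (2 : ℝ) ≤ k := by exact_mod_cast hk2
    linarith
  have ha0 : 0 < Real.pi / ((k : ℝ) + 2) := by positivity
  have ha1 : Real.pi / ((k : ℝ) + 2) < Real.pi / 2 := by
    rw [div_lt_div_iff₀ (by linarith) (by norm_num)]
    nlinarith
  have hc0 : 0 < Real.cos (Real.pi / ((k : ℝ) + 2)) :=
    Real.cos_pos_of_mem_Ioo ⟨by linarith, ha1⟩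
  rcases le_or_gt 4 q with h4 | h4
  · exact Pool.Agent.H110R3.BP.main G hG f hf p hp q h4
  rcases hq.eq_or_lt with heq | hlt
  · have h1 := Pool.Agent.TH389.BB.main_beraha G hG f hf p hp (k + 2) (by omega)
    have h2 : 2 + 2 * Real.cos (2 * Real.pi / ((k + 2 : ℕ) : ℝ)) = q := by
      rw [← heq]
      push_cast
      have h3 : (2 * Real.pi / ((k : ℝ) + 2)) = 2 * (Real.pi / ((k : ℝ) + 2)) := by ring
      rw [h3, Real.cos_two_mul]
      ring
    rwa [h2] at h1
  · obtain ⟨C⟩ := hG
    have hb : Bip (fun v => decide (C v = 0)) G.edgeSet := by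
      intro a b hab hne
      have h1 : C a ≠ C b := C.valid (SimpleGraph.mem_edgeSet G |>.1 hab)
      have h2 : (C a = 0) ↔ (C b = 0) := decide_eq_decide.1 hne
      apply h1
      have h3 : ∀ x y : Fin 2, (x = 0 ↔ y = 0) → x = y := by decide
      exact h3 _ _ h2
    have hq0 : 0 < q := lt_trans (by positivity) hlt
    set r := Real.sqrt q / 2 with hr
    have hs2 : Real.sqrt q ^ 2 = q := Real.sq_sqrt hq0.le
    have hs0 : 0 < Real.sqrt q := Real.sqrt_pos.2 hq0
    have hr1 : r < 1 := by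
      rw [hr]
      nlinarith
    have hr0 : 0 < r := by positivity
    have hrc : Real.cos (Real.pi / ((k : ℝ) + 2)) < r := by
      rw [hr]
      nlinarith
    have hθ0 : 0 < Real.arccos r := Real.arccos_pos.2 hr1
    have hθ1 : Real.arccos r < Real.pi / ((k : ℝ) + 2) := by
      rw [← Real.arccos_cos ha0.le (by linarith)]
      exact Real.arccos_lt_arccos (by linarith) hrc hr1.le
    have hcos : Real.cos (Real.arccos r) = r := Real.cos_arccos (by linarith) hr1.le
    refine good_pos_width k _ G (goodw_of_proc k _ (straightw_proc k f hf hx hk) hb) p hp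
      (eigT ((k : ℤ) + 3) (Real.arccos r) hθ0 ?_) ?_ le_rfl q ?_
    · push_cast
      have h5 := mul_lt_mul_of_pos_right hθ1 (show (0 : ℝ) < (k : ℝ) + 2 by linarith)
      rw [div_mul_cancel₀ _ (by linarith)] at h5
      linarith
    · rw [hcos]
      positivity
    · rw [hcos, hr]
      linear_combination -hs2

end Pool.Agent.TH389.BW
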