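import Pool.Agent.TH389.BW.Pos

/-! Sweeps with a bounded number of strands. -/

set_option autoImplicit false
set_option linter.unusedVariables false

namespace Pool.Agent.TH389.BW

open Pool.Agent.H207R2.BL Pool.Agent.H110R3.BP Pool.Agent.H110R3.BP2 Polynomial

/-- processes with at most `w` strands -/
inductive ProcW {V : Type} (w : ℕ) : List V → Set V → Set (Sym2 V) → Prop
  | nil : ProcW w [] ∅ ∅
  | new (L1 L2 : List V) (U : Set V) (E : Set (Sym2 V)) (v : V) (h : ProcW w (L1 ++ L2) U E)
      (hv : v ∉ U) (hw : L1.length + L2.length + 1 ≤ w) : ProcW w (L1 ++ v :: L2) (insert v U) E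
  | dup (L1 L2 : List V) (U : Set V) (E : Set (Sym2 V)) (v : V) (h : ProcW w (L1 ++ v :: L2) U E)
      (hw : L1.length + L2.length + 2 ≤ w) : ProcW w (L1 ++ v :: v :: L2) U E
  | edge (L1 L2 : List V) (U : Set V) (E : Set (Sym2 V)) (u v : V)
      (h : ProcW w (L1 ++ u :: v :: L2) U E) (huv : u ≠ v) :
      ProcW w (L1 ++ u :: v :: L2) U (insert s(u, v) E)
  | drop (L1 L2 : List V) (U : Set V) (E : Set (Sym2 V)) (v : V)
      (h : ProcW w (L1 ++ v :: L2) U E) : ProcW w (L1 ++ L2) U E

theorem ProcW.toProc {V : Type} {w : ℕ} {L : List V} {U : Set V} {E : Set (Sym2 V)}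
    (h : ProcW w L U E) : Proc L U E := by
  induction h with
  | nil => exact Proc.nil
  | new L1 L2 U E v h hv hw ih => exact Proc.new L1 L2 U E v ih hv
  | dup L1 L2 U E v h hw ih => exact Proc.dup L1 L2 U E v ih
  | edge L1 L2 U E u v h huv ih => exact Proc.edge L1 L2 U E u v ih huv
  | drop L1 L2 U E v h ih => exact Proc.drop L1 L2 U E v ih

theorem procw_event_in {V : Type} (w : ℕ) (P Q : List V) (v : V) (I : List V) :
    ∀ (U : Set V) (E : Set (Sym2 V)), ProcW w (P ++ I ++ v :: Q) U E → (∀ u ∈ I, u ≠ v) →
      ProcW w (P ++ v :: Q) U (E ∪ {e | ∃ u ∈ I, e = s(u, v)}) := by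
  induction I using List.reverseRecOn with
  | nil =>
    intro U E h _
    have h1 : E ∪ {e | ∃ u ∈ ([] : List V), e = s(u, v)} = E := by
      ext e
      simp
    rw [h1]
    simpa using h
  | append_singleton I u ih =>
    intro U E h hI
    have h1 : P ++ (I ++ [u]) ++ v :: Q = (P ++ I) ++ u :: v :: Q := by simp
    rw [h1] at h
    have h2 := ProcW.edge (P ++ I) Q U E u v h (hI u (by simp))
    have h3 := ProcW.drop (P ++ I) (v :: Q) U _ u h2
    have h4 := ih U _ h3 (fun z hz => hI z (by simp [hz]))
    have h5 : insert s(u, v) E ∪ {e | ∃ z ∈ I, e = s(z, v)} =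
        E ∪ {e | ∃ z ∈ I ++ [u], e = s(z, v)} := by
      ext e
      simp only [Set.mem_union, Set.mem_insert_iff, Set.mem_ofPred_eq, List.mem_append,
        List.mem_singleton]
      constructor
      · rintro ((he | he) | ⟨z, hz, he⟩)
        · exact Or.inr ⟨u, Or.inr rfl, he⟩
        · exact Or.inl he
        · exact Or.inr ⟨z, Or.inl hz, he⟩
      · rintro (he | ⟨z, hz | hz, he⟩)
        · exact Or.inl (Or.inr he)
        · exact Or.inr ⟨z, hz, he⟩
        · exact Or.inl (Or.inl (by rw [← hz]; exact he))
    rw [← h5]
    exact h4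

theorem procw_event_rep {V : Type} (w : ℕ) (P Q : List V) (v : V) (U : Set V)
    (E : Set (Sym2 V)) (h : ProcW w (P ++ v :: Q) U E) (b : ℕ)
    (hw : P.length + (b + 1) + Q.length ≤ w) :
    ProcW w (P ++ v :: (List.replicate b v ++ Q)) U E := by
  induction b with
  | zero => simpa using h
  | succ b ih =>
    have h1 := ProcW.dup P (List.replicate b v ++ Q) U E v (ih (by omega))
      (by rw [List.length_append, List.length_replicate]; omega)
    simpa [List.replicate_succ] using h1

theorem procw_event {V : Type} (w : ℕ) (P Q I : List V) (v : V) (b : ℕ) (U : Set V)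
    (E : Set (Sym2 V)) (h : ProcW w (P ++ I ++ Q) U E) (hv : v ∉ U) (hI : ∀ u ∈ I, u ≠ v)
    (hw1 : P.length + I.length + Q.length + 1 ≤ w) (hw2 : P.length + b + Q.length ≤ w) :
    ProcW w (P ++ List.replicate b v ++ Q) (insert v U) (E ∪ {e | ∃ u ∈ I, e = s(u, v)}) := by
  have h1 := ProcW.new (P ++ I) Q U E v h hv (by rw [List.length_append]; omega)
  have h2 := procw_event_in w P Q v I (insert v U) E h1 hI
  cases b with
  | zero =>
    have h3 := ProcW.drop P Q _ _ v h2
    simpa using h3
  | succ b =>
    have h3 := procw_event_rep w P Q v _ _ h2 b (by omega)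
    simpa [List.replicate_succ] using h3

theorem monow_proc_aux (k : ℕ) {V : Type} [Finite V] {G : SimpleGraph V} {x y : V → ℝ}
    {g : V → V → ℝ → ℝ} (h : Mono G x y g)
    (hwd : ∀ (t : ℝ) (l : List (V × V)), IsList G x g t l → l.length ≤ k) (n : ℕ) : ∀ (t : ℝ), Set.ncard {v | x v < t} = n →
    (∀ v, x v ≠ t) → ∀ (l : List (V × V)), IsList G x g t l →
    ProcW (k + 1) (l.map Prod.fst) {v | x v < t}
      {e | ∃ u w, e = s(u, w) ∧ G.Adj u w ∧ x u < t ∧ x w < t} := by
  induction n using Nat.strong_induction_on with
  | _ n ih =>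
    intro t hn ht l hl
    rcases Set.eq_empty_or_nonempty {v | x v < t} with he | hne
    · have hno : ∀ v, ¬ x v < t := fun v hv => by
        have : v ∈ {v | x v < t} := hv
        rw [he] at this
        exact this
      have hl0 : l = [] := by
        rw [List.eq_nil_iff_forall_not_mem]
        intro e hel
        exact hno _ ((hl.mem e).1 hel).2.1
      have hE : {e : Sym2 V | ∃ u w, e = s(u, w) ∧ G.Adj u w ∧ x u < t ∧ x w < t} = ∅ := by
        ext e
        simp only [Set.mem_setOf_eq, Set.mem_empty_iff_false, iff_false]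
        rintro ⟨u, w, -, -, hu, -⟩
        exact hno u hu
      rw [hl0, he, hE]
      exact ProcW.nil
    · obtain ⟨v, hv, hmax⟩ := Set.exists_max_image {v | x v < t} x (Set.toFinite _) hne
      obtain ⟨t0, ht0, hz⟩ := mono_proc_t0 x (x v)
      have hvt : x v < t := hv
      have hno : ∀ z, z ≠ v → x z < t0 ∨ t < x z := by
        intro z hzv
        rcases lt_or_gt_of_ne (ht z) with h1 | h1
        · refine Or.inl (hz z (lt_of_le_of_ne (hmax z h1) fun h2 => hzv (h.inj h2)))
        · exact Or.inr h1
      obtain ⟨P, O, Q, I, hPOQ, hO, hI, hl'⟩ := event_list h v t0 t ht0 hvt hno l hl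
      have hU : {z | x z < t} = insert v {z | x z < t0} := by
        ext z
        simp only [Set.mem_setOf_eq, Set.mem_insert_iff]
        constructor
        · intro h1
          by_cases hzv : z = v
          · exact Or.inl hzv
          · rcases hno z hzv with h2 | h2
            · exact Or.inr h2
            · exact absurd h1 (not_lt.2 h2.le)
        · rintro (rfl | h1)
          · exact hvt
          · exact h1.trans (ht0.trans hvt)
      have hvU : v ∉ {z | x z < t0} := fun h1 => absurd h1 (not_lt.2 (le_of_lt ht0))
      have hlt : Set.ncard {z | x z < t0} < n := by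
        rw [← hn, hU, Set.ncard_insert_of_notMem hvU (Set.toFinite _)]
        exact Nat.lt_succ_self _
      have ht0' : ∀ z, x z ≠ t0 := by
        intro z hz0
        by_cases hzv : z = v
        · subst hzv
          exact absurd hz0 ht0.ne'
        · rcases hno z hzv with h2 | h2
          · exact absurd hz0 h2.ne
          · linarith
      have hp := ih _ hlt t0 rfl ht0' _ hl'
      rw [List.map_append, List.map_append] at hp
      have hI' : ∀ u ∈ I.map Prod.fst, u ≠ v := by
        intro u hu
        obtain ⟨e, he, rfl⟩ := List.mem_map.1 hu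
        intro h2
        have h3 := ((hI e).1 he).2.2
        rw [h2] at h3
        exact lt_irrefl _ h3
      have hlen0 := hwd t0 _ hl'
      have hlen1 := hwd t l hl
      rw [hPOQ] at hlen1
      simp only [List.length_append] at hlen0 hlen1
      have hp' := procw_event (k + 1) (P.map Prod.fst) (Q.map Prod.fst) (I.map Prod.fst) v
        O.length _ _ hp hvU hI' (by simp only [List.length_map]; omega)
        (by simp only [List.length_map]; omega)
      have hOr : O.map Prod.fst = List.replicate O.length v := by
        rw [List.eq_replicate_iff]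
        refine ⟨List.length_map _, ?_⟩
        intro u hu
        obtain ⟨e, he, rfl⟩ := List.mem_map.1 hu
        exact hO e he
      have hE : {e : Sym2 V | ∃ u w, e = s(u, w) ∧ G.Adj u w ∧ x u < t ∧ x w < t} =
          {e | ∃ u w, e = s(u, w) ∧ G.Adj u w ∧ x u < t0 ∧ x w < t0} ∪
            {e | ∃ u ∈ I.map Prod.fst, e = s(u, v)} := by
        ext e
        simp only [Set.mem_setOf_eq, Set.mem_union]
        have hcase : ∀ z, x z < t → z = v ∨ x z < t0 := fun z hz => by
          have h1 : z ∈ {z | x z < t} := hz
          rw [hU] at h1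
          exact h1
        constructor
        · rintro ⟨u, w, rfl, hadj, hu, hw⟩
          rcases hcase u hu with hu' | hu'
          · rcases hcase w hw with hw' | hw'
            · exact absurd (hu'.trans hw'.symm) hadj.ne
            · subst hu'
              refine Or.inr ⟨w, ?_, Sym2.eq_swap⟩
              exact List.mem_map.2 ⟨(w, u), (hI (w, u)).2 ⟨hadj.symm, rfl, hw'.trans ht0⟩, rfl⟩
          · rcases hcase w hw with hw' | hw'
            · subst hw'
              refine Or.inr ⟨u, ?_, rfl⟩
              exact List.mem_map.2 ⟨(u, w), (hI (u, w)).2 ⟨hadj, rfl, hu'.trans ht0⟩, rfl⟩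
            · exact Or.inl ⟨u, w, rfl, hadj, hu', hw'⟩
        · rintro (⟨u, w, rfl, hadj, hu, hw⟩ | ⟨u, hu, rfl⟩)
          · exact ⟨u, w, rfl, hadj, hu.trans (ht0.trans hvt), hw.trans (ht0.trans hvt)⟩
          · obtain ⟨e, he, rfl⟩ := List.mem_map.1 hu
            obtain ⟨h1, -, h3⟩ := (hI e).1 he
            exact ⟨e.1, v, rfl, h1, h3.trans hvt, hvt⟩
      rw [hPOQ, List.map_append, List.map_append, hOr, hU, hE]
      exact hp'

theorem straightw_proc {V : Type} [Finite V] (k : ℕ) {G : SimpleGraph V} (f : V → ℝ × ℝ)
    (h : IsStraight G f) (hx : Function.Injective (fun v => (f v).1))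
    (hk : ∀ t : ℝ, {e : V × V | G.Adj e.1 e.2 ∧ (f e.1).1 < t ∧ t < (f e.2).1}.ncard ≤ k) :
    ProcW (k + 1) [] Set.univ G.edgeSet := by
  have h2 := mono_of_straight _ h hx
  obtain ⟨t, ht⟩ := straight_proc_bound (fun v => (f v).1)
  have hwd : ∀ (t : ℝ) (l : List (V × V)), IsList G (fun v => (f v).1)
      (fun u w t => (f u).2 + (t - (f u).1) / ((f w).1 - (f u).1) * ((f w).2 - (f u).2)) t l →
      l.length ≤ k := by
    classical
    intro t l hl
    have hnd : l.Nodup := hl.sorted.imp (fun {a b} hab hne => by rw [hne] at hab; exact lt_irrefl _ hab)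
    have hs : {e : V × V | G.Adj e.1 e.2 ∧ (f e.1).1 < t ∧ t < (f e.2).1} =
        ((l.toFinset : Finset (V × V)) : Set (V × V)) := by
      ext e
      rw [Finset.mem_coe, List.mem_toFinset, hl.mem e]
      rfl
    have h3 := hk t
    rw [hs, Set.ncard_coe_finset, List.toFinset_card_of_nodup hnd] at h3
    exact h3
  have h3 := monow_proc_aux k h2 hwd _ t rfl (fun v => (ht v).ne) [] ⟨fun e => by
      constructor
      · intro he
        simp at he
      · rintro ⟨-, -, h4⟩
        exact absurd (ht e.2) (not_lt.2 h4.le), List.Pairwise.nil⟩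
  have e1 : {v | (fun v => (f v).1) v < t} = (Set.univ : Set V) := by
    ext v
    simp only [Set.mem_ofPred_eq, Set.mem_univ, iff_true]
    exact ht v
  have e2 : {e : Sym2 V | ∃ u w, e = s(u, w) ∧ G.Adj u w ∧
      (fun v => (f v).1) u < t ∧ (fun v => (f v).1) w < t} =
      G.edgeSet := by
    ext e
    constructor
    · rintro ⟨u, w, rfl, h4, -, -⟩
      exact h4
    · intro h4
      induction e using Sym2.ind with
      | _ u w => exact ⟨u, w, rfl, h4, ht u, ht w⟩
  rw [← e1, ← e2]
  exact h3

theorem goodw_nil {V : Type} [Fintype V] (n : ℕ) (col : V → Bool) :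
    GoodW n col ([] : List V) ∅ := by
  classical
  refine ⟨[], fun _ => false, Fintype.card V, 0, OK.nil _, ?_, ?_, by simp, ?_⟩
  · intro i hi
    simp at hi
  · intro l hl
    simp at hl
  · intro k _ c
    have h1 : cnt k ([] : List V) ∅ (cl (fun i => i) ([] : List V).length c) =
        (k : ℝ) ^ Fintype.card V := by
      unfold cnt cl
      simp
    rw [h1]
    simp [T]

theorem goodw_new {V : Type} [Fintype V] (n : ℕ) (col : V → Bool) (L1 L2 : List V) (E : Set (Sym2 V))
    (v : V) (hv1 : v ∉ L1) (hv2 : v ∉ L2) (hE : ∀ u, s(u, v) ∉ E)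
    (h : GoodW n col (L1 ++ L2) E) (hn : L1.length + L2.length ≤ n) :
    GoodW n col (L1 ++ v :: L2) E := by
  obtain ⟨w, κ, a, b, hok, hcol, hin, hlen, heq⟩ := h
  obtain ⟨κ', hok', hb', hlt', hge'⟩ := ok_ins w κ hok L1.length L2.length (col v)
  refine ⟨insW L1.length L2.length ++ w, κ', a, b + L2.length + 2, hok', ?_, ?_, ?_, ?_⟩
  · intro i hi
    rw [List.length_append, List.length_cons] at hi
    rcases lt_trichotomy i L1.length with h1 | h1 | h1
    · rw [hlt' i h1, hcol i (by rw [List.length_append]; omega), List.getElem_append_left h1,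
        List.getElem_append_left h1]
    · subst h1
      rw [hb']
      simp
    · obtain ⟨j, rfl⟩ : ∃ j, i = j + 1 := ⟨i - 1, by omega⟩
      have h2 : L1.length ≤ j := by omega
      have h3 : j < L1.length + L2.length := by omega
      rw [hge' j h2 h3, hcol j (by rw [List.length_append]; omega),
        List.getElem_append_right h2, List.getElem_append_right (by omega)]
      obtain ⟨m, rfl⟩ : ∃ m, j = L1.length + m := ⟨j - L1.length, by omega⟩
      have h4 : L1.length + m + 1 - L1.length = m + 1 := by omega
      have h5 : L1.length + m - L1.length = m := by omega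
      simp only [h4, h5, List.getElem_cons_succ]
  · intro l hl
    rw [List.mem_append] at hl
    rcases hl with hl | hl
    · exact inr_ins n L1.length L2.length (by omega) l hl
    · exact hin l hl
  · rw [List.length_append, List.length_cons]
    omega
  · intro k hk c
    have hk0 : (k : ℝ) ≠ 0 := by
      have : 0 < k := hk
      positivity
    have hka : (k : ℝ) ^ a ≠ 0 := pow_ne_zero _ hk0
    have hF : (T (PR n k) w (fun _ => 1)) = fun c : Fin (n + 1) → Fin k =>
        (fun l => (k : ℝ) ^ b / (k : ℝ) ^ a * cnt k (L1 ++ L2) E l)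
          (cl (fun i => i) (L1.length + L2.length) c) := by
      funext c
      have := heq k hk c
      rw [List.length_append] at this
      simp only
      field_simp
      linarith
    have hins := ins_act n k L1.length L2.length (by omega)
      (fun l => (k : ℝ) ^ b / (k : ℝ) ^ a * cnt k (L1 ++ L2) E l) c
    rw [T_append, Module.End.mul_apply, hF]
    refine (congrArg (fun r => (k : ℝ) ^ a * r) hins).trans ?_
    rw [good_new_cl, List.length_append, List.length_cons, good_new_cl',
      ← cnt_new k L1 L2 E v hv1 hv2 hE _ _ (c (pt n L1.length)) (by simp [cl])]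
    field_simp
    ring

theorem goodw_dup {V : Type} [Fintype V] (n : ℕ) (col : V → Bool) (L1 L2 : List V) (E : Set (Sym2 V))
    (v : V) (h : GoodW n col (L1 ++ v :: L2) E) (hn : L1.length + L2.length + 1 ≤ n) :
    GoodW n col (L1 ++ v :: v :: L2) E := by
  obtain ⟨w, κ, a, b, hok, hκ, hr, hN, hT⟩ := h
  have hlen : (L1 ++ v :: L2).length = L1.length + 1 + L2.length := by simp; omega
  have hlen' : (L1 ++ v :: v :: L2).length = L1.length + (L2.length + 1 + 1) := by simp
  have hp : L1.length < (L1 ++ v :: L2).length := by rw [hlen]; omega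
  have e0 : κ L1.length = col v := by
    rw [hκ _ hp]; congr 1; simp
  obtain ⟨κ', hok', hb', hlow, hhigh⟩ := ok_ins w κ hok (L1.length + 1) L2.length (col v)
  refine ⟨Let.J L1.length :: (insW (L1.length + 1) L2.length ++ w), κ', a,
    b + (L2.length + 1), OK.J _ _ _ hok' ?_, ?_, ?_, ?_, ?_⟩
  · rw [hlow _ (by omega), hb', e0]
  · intro i hi
    rcases lt_trichotomy i (L1.length + 1) with h1 | h1 | h1
    · rw [hlow i h1, hκ i (by rw [hlen]; omega)]
      congr 1
      rcases Nat.lt_or_ge i L1.length with h2 | h2
      · rw [List.getElem_append_left h2, List.getElem_append_left h2]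
      · have h3 : i = L1.length := by omega
        subst h3
        simp
    · subst h1
      rw [hb']
      congr 1
      rw [List.getElem_append_right (by omega)]
      simp
    · obtain ⟨j, rfl⟩ : ∃ j, i = j + 1 := ⟨i - 1, by omega⟩
      rw [hlen'] at hi
      rw [hhigh j (by omega) (by omega), hκ j (by rw [hlen]; omega)]
      congr 1
      rw [List.getElem_append_right (by omega), List.getElem_append_right (by omega)]
      obtain ⟨t, rfl⟩ : ∃ t, j = L1.length + 1 + t := ⟨j - (L1.length + 1), by omega⟩
      have e1 : L1.length + 1 + t - L1.length = t + 1 := by omega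
      have e2 : L1.length + 1 + t + 1 - L1.length = t + 1 + 1 := by omega
      simp only [e1, e2, List.getElem_cons_succ]
  · intro l hl
    rcases List.mem_cons.1 hl with rfl | hl
    · show L1.length < n
      omega
    · rcases List.mem_append.1 hl with hl | hl
      · exact inr_ins n (L1.length + 1) L2.length (by omega) l hl
      · exact hr l hl
  · omega
  · intro k hk c
    have hk0 : (k : ℝ) ≠ 0 := by
      have : (1 : ℝ) ≤ k := by exact_mod_cast hk
      positivity
    have hfun : (T (PR n k) w (fun _ => 1)) = fun c : Fin (n + 1) → Fin k =>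
        (fun l : List (Fin k) => (k : ℝ) ^ b / (k : ℝ) ^ a * cnt k (L1 ++ v :: L2) E l)
          (cl (fun i => i) (L1.length + 1 + L2.length) c) := by
      funext c
      have h1 := hT k hk c
      rw [hlen] at h1
      simp only
      have ha : (k : ℝ) ^ a ≠ 0 := pow_ne_zero _ hk0
      field_simp
      linarith
    have hins := ins_act n k (L1.length + 1) L2.length (by omega)
      (fun l : List (Fin k) => (k : ℝ) ^ b / (k : ℝ) ^ a * cnt k (L1 ++ v :: L2) E l) c
    have key : (T (PR n k) (Let.J L1.length :: (insW (L1.length + 1) L2.length ++ w))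
          (fun _ => 1)) c =
        if c (pt n L1.length) = c (pt n (L1.length + 1)) then
          (T (PR n k) (insW (L1.length + 1) L2.length) (T (PR n k) w (fun _ => 1))) c else 0 := by
      have : T (PR n k) (Let.J L1.length :: (insW (L1.length + 1) L2.length ++ w)) =
          (PR n k).e (2 * L1.length + 1) *
            (T (PR n k) (insW (L1.length + 1) L2.length) * T (PR n k) w) := by
        rw [← T_append]
        simp [T, ev]
      rw [this, PR_odd, Module.End.mul_apply, Module.End.mul_apply, Jop_apply]
    have hcl : cl (fun i => i) (L1 ++ v :: v :: L2).length c =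
        cl (fun i => i) L1.length c ++ c (pt n L1.length) :: c (pt n (L1.length + 1)) ::
          cl (fun i => L1.length + (i + 1 + 1)) L2.length c := by
      rw [hlen', good_dup_cl_add, good_dup_cl_succ, good_dup_cl_succ]
      rfl
    have hup : cl (up (L1.length + 1)) (L1.length + 1 + L2.length) c =
        cl (fun i => i) L1.length c ++ c (pt n L1.length) ::
          cl (fun i => L1.length + (i + 1 + 1)) L2.length c := by
      have e3 : L1.length + 1 + L2.length = L1.length + (L2.length + 1) := by omega
      rw [e3, good_dup_cl_add, good_dup_cl_succ]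
      have e4 : cl (up (L1.length + 1)) L1.length c = cl (fun i => i) L1.length c := by
        apply good_dup_cl_congr
        intro i hi
        simp only [up]
        rw [if_pos (by omega)]
      have e5 : up (L1.length + 1) (L1.length + 0) = L1.length := by
        simp [up]
      have e6 : cl (fun i => up (L1.length + 1) (L1.length + (i + 1))) L2.length c =
          cl (fun i => L1.length + (i + 1 + 1)) L2.length c := by
        apply good_dup_cl_congr
        intro i hi
        simp only [up]
        rw [if_neg (by omega)]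
        omega
      rw [e4, e5, e6]
    rw [key, hcl, cnt_dup k L1 L2 E v _ _ _ _ (by simp [cl]), hfun, hins, hup]
    split_ifs with hc
    · have ha : (k : ℝ) ^ a ≠ 0 := pow_ne_zero _ hk0
      have hX : ∀ (A B D Y : ℝ), A ≠ 0 → A * (D * (B / A * Y)) = B * D * Y := by
        intro A B D Y hA
        field_simp
      rw [pow_add (k : ℝ) b (L2.length + 1)]
      exact hX _ _ _ _ ha
    · simp

theorem goodw_edge {V : Type} [Fintype V] (n : ℕ) (col : V → Bool) (L1 L2 : List V) (E : Set (Sym2 V))
    (u v : V) (huv : col u ≠ col v) (h : GoodW n col (L1 ++ u :: v :: L2) E) :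
    GoodW n col (L1 ++ u :: v :: L2) (insert s(u, v) E) := by
  obtain ⟨w, κ, a, b, hok, hκ, hr, hN, hT⟩ := h
  have hlen : (L1 ++ u :: v :: L2).length = L1.length + (L2.length + 1 + 1) := by simp
  have hp : L1.length < (L1 ++ u :: v :: L2).length := by rw [hlen]; omega
  have hp1 : L1.length + 1 < (L1 ++ u :: v :: L2).length := by rw [hlen]; omega
  have e0 : κ L1.length = col u := by
    rw [hκ _ hp]; congr 1; simp
  have e1 : κ (L1.length + 1) = col v := by
    rw [hκ _ hp1]; congr 1
    rw [List.getElem_append_right (by omega)]; simp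
  refine ⟨Let.X L1.length :: w, κ, a, b, OK.X _ _ _ hok (by rw [e0, e1]; exact huv), hκ, ?_, hN, ?_⟩
  · intro l hl
    rcases List.mem_cons.1 hl with rfl | hl
    · show L1.length < n
      omega
    · exact hr l hl
  · intro k hk c
    have h1 := hT k hk c
    have key : (T (PR n k) (Let.X L1.length :: w) (fun _ => 1)) c =
        if c (pt n L1.length) = c (pt n (L1.length + 1)) then 0 else
          (T (PR n k) w (fun _ => 1)) c := by
      have : T (PR n k) (Let.X L1.length :: w) =
          (1 - (PR n k).e (2 * L1.length + 1)) * T (PR n k) w := by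
        simp [T, ev]
      rw [this, PR_odd, Module.End.mul_apply, LinearMap.sub_apply, Module.End.one_apply]
      show T (PR n k) w (fun _ => 1) c - Jop _ _ (T (PR n k) w (fun _ => 1)) c = _
      rw [Jop_apply]
      split_ifs <;> simp
    have hcl : cl (fun i => i) (L1 ++ u :: v :: L2).length c =
        cl (fun i => i) L1.length c ++ c (pt n L1.length) :: c (pt n (L1.length + 1)) ::
          cl (fun i => L1.length + (i + 1 + 1)) L2.length c := by
      rw [hlen, good_edge_cl_add, good_edge_cl_succ, good_edge_cl_succ]
      rfl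
    rw [key, hcl, cnt_edge k L1 L2 E u v _ _ _ _ (by simp [cl])]
    rw [hcl] at h1
    split_ifs with hc
    · simp
    · exact h1

theorem goodw_drop {V : Type} [Fintype V] (n : ℕ) (col : V → Bool) (L1 L2 : List V) (E : Set (Sym2 V))
    (v : V) (h : GoodW n col (L1 ++ v :: L2) E) : GoodW n col (L1 ++ L2) E := by
  obtain ⟨w, κ, a, b, hok, hκ, hin, hlen, hid⟩ := h
  have hl : (L1 ++ v :: L2).length = L1.length + 1 + L2.length := by
    simp only [List.length_append, List.length_cons]; omega
  rw [hl] at hlen
  obtain ⟨κ', hok', hκ1, hκ2⟩ := ok_del w κ hok L1.length L2.length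
  refine ⟨delW L1.length L2.length ++ w, κ', a, b + L2.length, hok', ?_, ?_, ?_, ?_⟩
  · intro i hi
    rw [List.length_append] at hi
    rcases lt_or_ge i L1.length with h1 | h1
    · rw [hκ1 i h1, hκ i (by rw [hl]; omega), List.getElem_append_left h1,
        List.getElem_append_left h1]
    · rw [hκ2 i h1 hi, hκ (i + 1) (by rw [hl]; omega), List.getElem_append_right h1,
        List.getElem_append_right (by omega)]
      congr 1
      have h2 : i + 1 - L1.length = (i - L1.length) + 1 := by omega
      simp only [h2, List.getElem_cons_succ]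
  · intro l hl'
    rcases List.mem_append.1 hl' with h1 | h1
    · exact inr_del n L1.length L2.length (by omega) l h1
    · exact hin l h1
  · rw [List.length_append]; omega
  · intro k hk c
    have hd := del_act n k L1.length L2.length (by omega)
      (fun l => (k : ℝ) ^ b * cnt k (L1 ++ v :: L2) E l) c
    have hg : (fun c : Fin (n + 1) → Fin k => (k : ℝ) ^ b * cnt k (L1 ++ v :: L2) E
        (cl (fun i => i) (L1.length + 1 + L2.length) c)) =
        (k : ℝ) ^ a • (T (PR n k) w (fun _ => 1)) := by
      funext c'
      rw [← hl]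
      exact (hid k hk c').symm
    rw [hg, map_smul] at hd
    rw [T_append, Module.End.mul_apply]
    have hd' : (k : ℝ) ^ a * (T (PR n k) (delW L1.length L2.length))
        ((T (PR n k) w) (fun _ => 1)) c = _ := hd
    rw [hd', List.length_append, good_drop_cl]
    rw [← cnt_drop k L1 L2 E v (cl (fun i => i) L1.length c)
      (cl (fun i => L1.length + i) L2.length c) (by simp [cl])]
    rw [← Finset.mul_sum, pow_add]
    ring

theorem goodw_of_proc {V : Type} [Fintype V] (n : ℕ) (col : V → Bool) {L : List V} {U : Set V}
    {E : Set (Sym2 V)} (h : ProcW (n + 1) L U E) (hb : Bip col E) : GoodW n col L E := by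
  induction h with
  | nil => exact goodw_nil n col
  | new L1 L2 U E v h hv hw ih =>
    obtain ⟨h1, h2⟩ := proc_inv h.toProc
    refine goodw_new n col L1 L2 E v ?_ ?_ ?_ (ih hb) (by omega)
    · intro hv1
      exact hv (h1 v (List.mem_append_left _ hv1))
    · intro hv1
      exact hv (h1 v (List.mem_append_right _ hv1))
    · intro u hu
      exact hv (h2 u v hu).2.1
  | dup L1 L2 U E v h hw ih => exact goodw_dup n col L1 L2 E v (ih hb) (by omega)
  | edge L1 L2 U E u v h huv ih =>
    refine goodw_edge n col L1 L2 E u v ?_ (ih ?_)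
    · exact hb u v (Set.mem_insert _ _)
    · intro a b hab
      exact hb a b (Set.mem_insert_of_mem _ hab)
  | drop L1 L2 U E v h ih => exact goodw_drop n col L1 L2 E v (ih hb)

end Pool.Agent.TH389.BW
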