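import Pool.Agent.H110R3.BP2.Core

/-! The path representation of the Temperley-Lieb relations on the paths from height `1` to
height `1`. -/

set_option autoImplicit false

namespace Pool.Agent.TH389.BW

open Pool.Agent.H207R2.BL Pool.Agent.H110R3.BP Pool.Agent.H110R3.BP2

/-- solutions of `S (h+1) + S (h-1) = δ S h` for `0 < h < m - 1`, vanishing outside -/
structure EigT (m : ℤ) (δ : ℝ) (S : ℤ → ℝ) : Prop where
  pos : ∀ h : ℤ, 0 < h → h < m → 0 < S h
  zero : ∀ h : ℤ, ¬ (0 < h ∧ h < m) → S h = 0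
  recur : ∀ h : ℤ, 0 < h → h + 1 < m → S (h + 1) + S (h - 1) = δ * S h

variable {m : ℤ} {δ : ℝ} {S : ℤ → ℝ}

theorem EigT.nonneg (hS : EigT m δ S) (h : ℤ) : 0 ≤ S h := by
  by_cases h1 : 0 < h ∧ h < m
  · exact (hS.pos h h1.1 h1.2).le
  · rw [hS.zero h h1]

theorem wt_nonneg (h : ℤ) (x : Bool) : 0 ≤ wt S h x := Real.sqrt_nonneg _

theorem wt_sq (hS : EigT m δ S) (h : ℤ) (x : Bool) :
    wt S h x ^ 2 = S (if x then h + 1 else h - 1) / S h :=
  Real.sq_sqrt (div_nonneg (hS.nonneg _) (hS.nonneg _))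

theorem wtT_sq_sum (hS : EigT m δ S) (h : ℤ) (h0 : 0 < h) (hm : h + 1 < m) :
    wt S h true ^ 2 + wt S h false ^ 2 = δ := by
  rw [wt_sq hS, wt_sq hS]
  simp only [if_true, Bool.false_eq_true, if_false]
  rw [← add_div, hS.recur h h0 hm, mul_div_assoc, div_self (hS.pos h h0 (by omega)).ne',
    mul_one]

theorem wtT_out (hS : EigT m δ S) (h : ℤ) (x : Bool)
    (hx : ¬ (0 < (if x then h + 1 else h - 1) ∧ (if x then h + 1 else h - 1) < m)) :
    wt S h x = 0 := by
  unfold wt
  rw [hS.zero _ hx, zero_div, Real.sqrt_zero]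

theorem wtT_mul_back (hS : EigT m δ S) (h : ℤ) (x : Bool) (h0 : 0 < h) (hm : h < m)
    (h1 : 0 < (if x then h + 1 else h - 1)) (h2 : (if x then h + 1 else h - 1) < m) :
    wt S h x * wt S (if x then h + 1 else h - 1) (!x) = 1 := by
  have ha := hS.pos h h0 hm
  have hb := hS.pos _ h1 h2
  unfold wt
  rw [← Real.sqrt_mul (div_nonneg hb.le ha.le)]
  have e : (if (!x) then (if x then h + 1 else h - 1) + 1 else (if x then h + 1 else h - 1) - 1) =
      h := by cases x <;> simp
  rw [e]
  have : S (if x then h + 1 else h - 1) / S h * (S h / S (if x then h + 1 else h - 1)) = 1 := by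
    field_simp
  rw [this, Real.sqrt_one]

/-- paths with all heights strictly between `0` and `m` which end at the height `1` -/
def Ins (n : ℕ) (m : ℤ) (s : Fin (2 * n + 2) → Bool) : Prop :=
  (∀ j, j ≤ 2 * n + 2 → 0 < hgt n s j ∧ hgt n s j < m) ∧ hgt n s (2 * n + 2) = 1

theorem hgt_up (n : ℕ) (s : Fin (2 * n + 2) → Bool) (j : ℕ) : hgt n s j ≤ 1 + (j : ℤ) := by
  induction j with
  | zero => rw [hgt_zero]; simp
  | succ j ih =>
    rw [hgt_succ]
    push_cast
    split_ifs <;> omega

theorem hgt_down (n : ℕ) (s : Fin (2 * n + 2) → Bool) (j k : ℕ) :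
    hgt n s j ≤ hgt n s (j + k) + (k : ℤ) := by
  induction k with
  | zero => simp
  | succ k ih =>
    rw [← Nat.add_assoc, hgt_succ]
    push_cast
    split_ifs <;> omega

theorem hgt_two (n : ℕ) (s : Fin (2 * n + 2) → Bool) (j : ℕ)
    (hs : s (st n (j + 1)) = !(s (st n j))) : hgt n s (j + 2) = hgt n s j := by
  rw [show j + 2 = j + 1 + 1 by ring, hgt_succ, hgt_succ, hs]
  cases s (st n j) <;> simp

theorem ins_top {n : ℕ} {s : Fin (2 * n + 2) → Bool} (hm : (n : ℤ) + 3 ≤ m) (h : Ins n m s)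
    (j : ℕ) (hj : j ≤ 2 * n) (hs : s (st n (j + 1)) = !(s (st n j))) : hgt n s j + 1 < m := by
  have h1 := hgt_up n s j
  have h2 := hgt_down n s (j + 2) (2 * n - j)
  rw [show j + 2 + (2 * n - j) = 2 * n + 2 by omega, h.2, hgt_two n s j hs] at h2
  have h3 : ((2 * n - j : ℕ) : ℤ) = 2 * n - j := by
    push_cast [Nat.cast_sub hj]
    ring
  rw [h3] at h2
  omega

open Classical in
/-- restriction to the inside paths -/
noncomputable def InM (n : ℕ) (m : ℤ) :
    Fn (Fin (2 * n + 2)) Bool →ₗ[ℝ] Fn (Fin (2 * n + 2)) Bool where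
  toFun f s := if Ins n m s then f s else 0
  map_add' f g := by
    ext s
    simp only [Pi.add_apply]
    split_ifs <;> simp
  map_smul' r f := by
    ext s
    simp only [Pi.smul_apply, smul_eq_mul, RingHom.id_apply]
    split_ifs <;> simp

theorem InM_in {n : ℕ} {s : Fin (2 * n + 2) → Bool} (h : Ins n m s)
    (f : Fn (Fin (2 * n + 2)) Bool) : InM n m f s = f s := if_pos h

theorem InM_out {n : ℕ} {s : Fin (2 * n + 2) → Bool} (h : ¬ Ins n m s)
    (f : Fn (Fin (2 * n + 2)) Bool) : InM n m f s = 0 := if_neg h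

theorem pop_app (n : ℕ) (S : ℤ → ℝ) (j : ℕ) (f : Fn (Fin (2 * n + 2)) Bool)
    (s : Fin (2 * n + 2) → Bool) :
    PopE n S 1 j f s = if s (st n (j + 1)) = !(s (st n j)) then
      wt S (hgt n s j) (s (st n j)) *
        ∑ x : Bool, wt S (hgt n s j) x * f (chg n j s x) else 0 := by
  rw [PopE_apply]
  simp only [ite_self, one_mul]

theorem chg_ins {n : ℕ} {s : Fin (2 * n + 2) → Bool} (h : Ins n m s) (j : ℕ) (hj : j ≤ 2 * n)
    (hs : s (st n (j + 1)) = !(s (st n j))) (x : Bool)
    (hx : 0 < (if x then hgt n s j + 1 else hgt n s j - 1) ∧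
      (if x then hgt n s j + 1 else hgt n s j - 1) < m) : Ins n m (chg n j s x) := by
  refine ⟨fun l hl => ?_, ?_⟩
  · rcases Nat.lt_or_ge l (j + 1) with h1 | h1
    · rw [hgt_chg_le n j hj s x l (by omega)]
      exact h.1 l hl
    · rcases Nat.eq_or_lt_of_le h1 with h2 | h2
      · rw [← h2, hgt_chg_mid n j hj s x]
        cases x <;> simpa [sub_eq_add_neg] using hx
      · rw [hgt_chg_ge n j hj s x l hs (by omega) hl]
        exact h.1 l hl
  · rw [hgt_chg_ge n j hj s x (2 * n + 2) hs (by omega) le_rfl]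
    exact h.2

theorem wt_InM (hS : EigT m δ S) {n : ℕ} {s : Fin (2 * n + 2) → Bool} (h : Ins n m s) (j : ℕ)
    (hj : j ≤ 2 * n) (hs : s (st n (j + 1)) = !(s (st n j))) (x : Bool)
    (f : Fn (Fin (2 * n + 2)) Bool) :
    wt S (hgt n s j) x * InM n m f (chg n j s x) = wt S (hgt n s j) x * f (chg n j s x) := by
  by_cases hx : 0 < (if x then hgt n s j + 1 else hgt n s j - 1) ∧
      (if x then hgt n s j + 1 else hgt n s j - 1) < m
  · rw [InM_in (chg_ins h j hj hs x hx)]
  · rw [wtT_out hS _ _ hx, zero_mul, zero_mul]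

theorem pop_InM (hS : EigT m δ S) {n : ℕ} {s : Fin (2 * n + 2) → Bool} (h : Ins n m s) (j : ℕ)
    (hj : j ≤ 2 * n) (f : Fn (Fin (2 * n + 2)) Bool) :
    PopE n S 1 j (InM n m f) s = PopE n S 1 j f s := by
  rw [pop_app, pop_app]
  by_cases hs : s (st n (j + 1)) = !(s (st n j))
  · rw [if_pos hs, if_pos hs]
    congr 1
    exact Finset.sum_congr rfl fun x _ => wt_InM hS h j hj hs x f
  · rw [if_neg hs, if_neg hs]

/-- the truncated generator -/
noncomputable def Pt (n : ℕ) (m : ℤ) (S : ℤ → ℝ) (j : ℕ) :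
    Module.End ℝ (Fn (Fin (2 * n + 2)) Bool) := InM n m * PopE n S 1 j

theorem Pt_out {n : ℕ} {s : Fin (2 * n + 2) → Bool} (h : ¬ Ins n m s) (j : ℕ)
    (f : Fn (Fin (2 * n + 2)) Bool) : Pt n m S j f s = 0 := InM_out h _

theorem Pt_in {n : ℕ} {s : Fin (2 * n + 2) → Bool} (h : Ins n m s) (j : ℕ)
    (f : Fn (Fin (2 * n + 2)) Bool) : Pt n m S j f s = PopE n S 1 j f s := InM_in h _

theorem Pt_in2 (hS : EigT m δ S) {n : ℕ} {s : Fin (2 * n + 2) → Bool} (h : Ins n m s) (j k : ℕ)
    (hj : j ≤ 2 * n) (f : Fn (Fin (2 * n + 2)) Bool) :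
    Pt n m S j (Pt n m S k f) s = PopE n S 1 j (PopE n S 1 k f) s := by
  rw [Pt_in h]
  exact pop_InM hS h j hj (PopE n S 1 k f)

theorem Pt_in3 (hS : EigT m δ S) {n : ℕ} {s : Fin (2 * n + 2) → Bool} (h : Ins n m s)
    (j k l : ℕ) (hj : j ≤ 2 * n) (hk : k ≤ 2 * n) (f : Fn (Fin (2 * n + 2)) Bool) :
    Pt n m S j (Pt n m S k (Pt n m S l f)) s =
      PopE n S 1 j (PopE n S 1 k (PopE n S 1 l f)) s := by
  have h1 : Pt n m S k (Pt n m S l f) = InM n m (PopE n S 1 k (PopE n S 1 l f)) := by
    funext t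
    by_cases ht : Ins n m t
    · rw [Pt_in2 hS ht k l hk, InM_in ht]
    · rw [Pt_out ht, InM_out ht]
  rw [h1, Pt_in h, pop_InM hS h j hj]

/-- equality of endomorphisms which vanish outside -/
theorem end_ext {n : ℕ} {A B : Module.End ℝ (Fn (Fin (2 * n + 2)) Bool)}
    (h1 : ∀ f s, Ins n m s → A f s = B f s) (h2 : ∀ f s, ¬ Ins n m s → A f s = B f s) : A = B := by
  refine LinearMap.ext fun f => funext fun s => ?_
  by_cases h : Ins n m s
  · exact h1 f s h
  · exact h2 f s h

theorem Pt_sq (hS : EigT m δ S) (n j : ℕ) (hm : (n : ℤ) + 3 ≤ m) (hj : j ≤ 2 * n) :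
    Pt n m S j * Pt n m S j = δ • Pt n m S j := by
  refine end_ext (m := m) (fun f s hin => ?_) (fun f s hout => ?_)
  swap
  · show Pt n m S j (Pt n m S j f) s = δ * Pt n m S j f s
    rw [Pt_out hout, Pt_out hout, mul_zero]
  show Pt n m S j (Pt n m S j f) s = δ * Pt n m S j f s
  rw [Pt_in2 hS hin j j hj, Pt_in hin]
  rw [PopE_apply, PopE_apply n S 1 j f s]
  split_ifs with hs
  · have key : ∀ x : Bool, PopE n S 1 j f (chg n j s x) = wt S (hgt n s j) x *
        (wt S (hgt n s j) true * f (chg n j s true) +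
          wt S (hgt n s j) false * f (chg n j s false)) := by
      intro x
      obtain ⟨c1, c2, _⟩ := chg_at n j hj s x
      rw [PopE_apply, c1, c2, if_pos rfl, hgt_chg_le n j hj s x j le_rfl, Fintype.sum_bool]
      rw [chg_chg n j hj, chg_chg n j hj, ite_self, ite_self, one_mul, one_mul]
    have hw := wtT_sq_sum hS (hgt n s j) (hin.1 j (by omega)).1 (ins_top hm hin j hj hs)
    rw [Fintype.sum_bool, Fintype.sum_bool, key, key, ite_self, ite_self]
    linear_combination (wt S (hgt n s j) (s (st n j)) *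
      (wt S (hgt n s j) true * f (chg n j s true) +
        wt S (hgt n s j) false * f (chg n j s false))) * hw
  · simp

theorem Pt_zig1 (hS : EigT m δ S) (n j : ℕ) (hj : j + 1 ≤ 2 * n) :
    Pt n m S j * Pt n m S (j + 1) * Pt n m S j = Pt n m S j := by
  refine end_ext (m := m) (fun f s hin => ?_) (fun f s hout => ?_)
  swap
  · show Pt n m S j (Pt n m S (j + 1) (Pt n m S j f)) s = Pt n m S j f s
    rw [Pt_out hout, Pt_out hout]
  show Pt n m S j (Pt n m S (j + 1) (Pt n m S j f)) s = Pt n m S j f s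
  rw [Pt_in3 hS hin j (j + 1) j (by omega) (by omega), Pt_in hin]
  rw [U8_app n S j, U8_app n S j f s]
  by_cases hc : s (st n (j + 1)) = !(s (st n j))
  swap
  · rw [if_neg hc, if_neg hc]
  rw [if_pos hc, if_pos hc]
  congr 1
  set h := hgt n s j with hh
  set Z := ∑ z : Bool, wt S h z * f (chg n j s z) with hZ
  have hj2 : j ≤ 2 * n := by omega
  have va : ∀ x, chg n j s x (st n j) = x := fun x => (chg_at n j hj2 s x).1
  have vb : ∀ x, chg n j s x (st n (j + 1)) = !x := fun x => (chg_at n j hj2 s x).2.1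
  have vc : ∀ x, chg n j s x (st n (j + 1 + 1)) = s (st n (j + 1 + 1)) := fun x =>
    (chg_at n j hj2 s x).2.2 (j + 1 + 1) (by omega) (by omega) (by omega)
  have vh : ∀ x, hgt n (chg n j s x) j = h := fun x => hgt_chg_le n j hj2 s x j le_rfl
  have vm : ∀ x : Bool, hgt n (chg n j s x) (j + 1) = if x then h + 1 else h - 1 := by
    intro x
    rw [hgt_chg_mid n j hj2]
    cases x <;> simp [sub_eq_add_neg, hh]
  have key : ∀ x : Bool, PopE n S 1 (j + 1) (PopE n S 1 j f) (chg n j s x) =
      if x = s (st n (j + 1 + 1)) then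
        wt S (if x then h + 1 else h - 1) (!x) *
          (wt S (if x then h + 1 else h - 1) (!x) * (wt S h x * Z)) else 0 := by
    intro x
    rw [U8_app n S (j + 1), vb x, vc x, vm x]
    by_cases hx : x = s (st n (j + 1 + 1))
    swap
    · rw [if_neg hx, if_neg]
      rw [Bool.not_not]
      exact fun h5 => hx h5.symm
    rw [if_pos hx, if_pos (by rw [Bool.not_not]; exact hx.symm)]
    congr 1
    have h2 : ∀ y : Bool, wt S (if x then h + 1 else h - 1) y *
        PopE n S 1 j f (chg n (j + 1) (chg n j s x) y) =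
        if y = !x then wt S (if x then h + 1 else h - 1) y * (wt S h x * Z) else 0 := by
      intro y
      by_cases hy : y = !x
      · rw [if_pos hy]
        have e1 : chg n (j + 1) (chg n j s x) y = chg n j s x := by
          have := chg_self n (j + 1) hj (chg n j s x) (by rw [vb, vc, ← hx, Bool.not_not])
          rw [vb] at this
          rw [hy]
          exact this
        rw [e1, U8_app n S j, vb, va, if_pos rfl, vh x]
        have e2 : ∑ z : Bool, wt S h z * f (chg n j (chg n j s x) z) = Z := by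
          rw [hZ]
          refine Finset.sum_congr rfl fun z _ => ?_
          rw [chg_chg n j hj2]
        rw [e2]
      · have a1 := (chg_at n (j + 1) hj (chg n j s x) y).1
        have a2 := (chg_at n (j + 1) hj (chg n j s x) y).2.2 j (by omega)
          (by omega) (by omega)
        have a0 : PopE n S 1 j f (chg n (j + 1) (chg n j s x) y) = 0 := by
          rw [U8_app n S j]
          refine if_neg ?_
          rw [a1, a2, va]
          exact hy
        rw [if_neg hy, a0, mul_zero]
    rw [Finset.sum_congr rfl (fun y _ => h2 y), Finset.sum_ite_eq' Finset.univ (!x)]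
    simp
  rw [Finset.sum_congr rfl (fun x _ => by rw [key x])]
  simp only [mul_ite, mul_zero, Finset.sum_ite_eq', Finset.mem_univ, if_true]
  have hin0 := hin.1 j (by omega)
  have hin3 := hin.1 (j + 1 + 1 + 1) (by omega)
  have e3 : hgt n s (j + 1 + 1 + 1) = if s (st n (j + 1 + 1)) then h + 1 else h - 1 := by
    rw [hgt_succ, hgt_succ, hgt_succ, hc, ← hh]
    cases s (st n j) <;> cases s (st n (j + 1 + 1)) <;> simp <;> ring
  rw [e3] at hin3
  have hw := wtT_mul_back hS h (s (st n (j + 1 + 1))) hin0.1 hin0.2 hin3.1 hin3.2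
  generalize wt S (if s (st n (j + 1 + 1)) then h + 1 else h - 1) (!(s (st n (j + 1 + 1)))) = b
    at hw ⊢
  generalize wt S h (s (st n (j + 1 + 1))) = a at hw ⊢
  calc a * (b * (b * (a * Z))) = (a * b) * (a * b) * Z := by ring
    _ = Z := by rw [hw, one_mul, one_mul]

theorem Pt_zig2 (hS : EigT m δ S) (n j : ℕ) (hj : j + 1 ≤ 2 * n) :
    Pt n m S (j + 1) * Pt n m S j * Pt n m S (j + 1) = Pt n m S (j + 1) := by
  refine end_ext (m := m) (fun f s hin => ?_) (fun f s hout => ?_)
  swap
  · show Pt n m S (j + 1) (Pt n m S j (Pt n m S (j + 1) f)) s = Pt n m S (j + 1) f s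
    rw [Pt_out hout, Pt_out hout]
  show Pt n m S (j + 1) (Pt n m S j (Pt n m S (j + 1) f)) s = Pt n m S (j + 1) f s
  rw [Pt_in3 hS hin (j + 1) j (j + 1) (by omega) (by omega), Pt_in hin]
  rw [U9_app n S (j + 1), U9_app n S (j + 1) f s]
  by_cases hc : s (st n (j + 1 + 1)) = !(s (st n (j + 1)))
  swap
  · rw [if_neg hc, if_neg hc]
  rw [if_pos hc, if_pos hc]
  congr 1
  set h := hgt n s j with hh
  set h' := hgt n s (j + 1) with hh'
  set Z := ∑ z : Bool, wt S h' z * f (chg n (j + 1) s z) with hZ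
  have hw : wt S h (s (st n j)) * wt S h' (!(s (st n j))) = 1 := by
    have h0 := hin.1 j (by omega)
    have h1 := hin.1 (j + 1) (by omega)
    rw [← U9_h n s j] at h1
    have := wtT_mul_back hS (hgt n s j) (s (st n j)) h0.1 h0.2 h1.1 h1.2
    rwa [U9_h n s j, ← hh, ← hh'] at this
  have va : ∀ x, chg n (j + 1) s x (st n j) = s (st n j) := fun x =>
    (chg_at n (j + 1) hj s x).2.2 j (by omega) (by omega) (by omega)
  have vb : ∀ x, chg n (j + 1) s x (st n (j + 1)) = x := fun x => (chg_at n (j + 1) hj s x).1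
  have vc : ∀ x, chg n (j + 1) s x (st n (j + 1 + 1)) = !x := fun x =>
    (chg_at n (j + 1) hj s x).2.1
  have vh : ∀ x l, l ≤ j + 1 → hgt n (chg n (j + 1) s x) l = hgt n s l := fun x l hl =>
    hgt_chg_le n (j + 1) hj s x l hl
  have key : ∀ x : Bool, PopE n S 1 j (PopE n S 1 (j + 1) f) (chg n (j + 1) s x) =
      if x = !(s (st n j)) then
        wt S h (s (st n j)) * (wt S h (s (st n j)) * (wt S h' (!(s (st n j))) * Z)) else 0 := by
    intro x
    rw [U9_app n S j, va x, vb x, vh x j (by omega), ← hh]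
    by_cases hx : x = !(s (st n j))
    swap
    · rw [if_neg hx, if_neg hx]
    rw [if_pos hx, if_pos hx]
    congr 1
    have h2 : ∀ y : Bool, wt S h y * PopE n S 1 (j + 1) f (chg n j (chg n (j + 1) s x) y) =
        if y = s (st n j) then wt S h y * (wt S h' (!(s (st n j))) * Z) else 0 := by
      intro y
      by_cases hy : y = s (st n j)
      · rw [if_pos hy]
        have e1 : chg n j (chg n (j + 1) s x) y = chg n (j + 1) s x := by
          have := chg_self n j (by omega) (chg n (j + 1) s x) (by rw [vb, va, hx])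
          rw [va] at this
          rw [hy]
          exact this
        rw [e1, U9_app n S (j + 1), vb, vc, if_pos rfl, vh x (j + 1) le_rfl, ← hh', ← hx]
        have e2 : ∑ z : Bool, wt S h' z * f (chg n (j + 1) (chg n (j + 1) s x) z) = Z := by
          rw [hZ]
          refine Finset.sum_congr rfl fun z _ => ?_
          rw [chg_chg n (j + 1) hj]
        rw [e2]
      · rw [if_neg hy, U9_app n S (j + 1), if_neg, mul_zero]
        have a1 := (chg_at n j (by omega) (chg n (j + 1) s x) y).2.1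
        have a2 := (chg_at n j (by omega) (chg n (j + 1) s x) y).2.2 (j + 1 + 1) (by omega)
          (by omega) (by omega)
        rw [a1, a2, vc, hx]
        intro h3
        apply hy
        simpa using h3.symm
    rw [Finset.sum_congr rfl (fun y _ => h2 y), Finset.sum_ite_eq' Finset.univ (s (st n j))]
    simp
  rw [Finset.sum_congr rfl (fun x _ => by rw [key x])]
  simp only [mul_ite, mul_zero, Finset.sum_ite_eq', Finset.mem_univ, if_true]
  calc wt S h' (!(s (st n j))) * (wt S h (s (st n j)) * (wt S h (s (st n j)) *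
        (wt S h' (!(s (st n j))) * Z)))
      = (wt S h (s (st n j)) * wt S h' (!(s (st n j)))) *
        (wt S h (s (st n j)) * wt S h' (!(s (st n j)))) * Z := by ring
    _ = Z := by rw [hw, one_mul, one_mul]

theorem Pt_comm (hS : EigT m δ S) (n i j : ℕ) (hij : i + 2 ≤ j) (hj : j ≤ 2 * n) :
    Pt n m S i * Pt n m S j = Pt n m S j * Pt n m S i := by
  refine end_ext (m := m) (fun f s hin => ?_) (fun f s hout => ?_)
  · show Pt n m S i (Pt n m S j f) s = Pt n m S j (Pt n m S i f) s
    rw [Pt_in2 hS hin i j (by omega), Pt_in2 hS hin j i hj]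
    have := LinearMap.congr_fun (Pop_comm n S i j hij hj) f
    exact congrFun this s
  · show Pt n m S i (Pt n m S j f) s = Pt n m S j (Pt n m S i f) s
    rw [Pt_out hout, Pt_out hout]

theorem ip_InM (n : ℕ) (f g : Fn (Fin (2 * n + 2)) Bool) :
    ip f (InM n m g) = ip (InM n m f) g := by
  unfold ip
  refine Finset.sum_congr rfl fun s _ => ?_
  by_cases h : Ins n m s
  · rw [InM_in h, InM_in h]
  · rw [InM_out h, InM_out h, mul_zero, zero_mul]

theorem Pt_symm (hS : EigT m δ S) (n j : ℕ) (hj : j ≤ 2 * n) (f g : Fn (Fin (2 * n + 2)) Bool) :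
    ip f (Pt n m S j g) = ip (Pt n m S j f) g := by
  have e : ∀ g : Fn (Fin (2 * n + 2)) Bool,
      Pt n m S j g = InM n m (PopE n S 1 j (InM n m g)) := by
    intro g
    funext s
    by_cases h : Ins n m s
    · rw [Pt_in h, InM_in h, pop_InM hS h j hj]
    · rw [Pt_out h, InM_out h]
  rw [e g, e f, ip_InM, Pop_symm n S j hj, ip_InM]

/-- The truncated height representation. -/
noncomputable def trTL (n : ℕ) (hm : (n : ℤ) + 3 ≤ m) (hS : EigT m δ S) (hδ : 0 < δ) (q : ℝ)
    (hq : q = δ ^ 2) : TL (2 * n + 1) q (Module.End ℝ (Fn (Fin (2 * n + 2)) Bool)) where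
  e j := (if Even j then δ else δ⁻¹) • Pt n m S j
  sq j hj := by
    rw [smul_mul_smul_comm, Pt_sq hS n j hm (by omega)]
    by_cases h : Even j
    · simp only [h, if_true, hq, smul_smul]
      congr 1
      ring
    · simp only [h, if_false, smul_smul]
      congr 1
      field_simp
  r1 j hj := by
    rw [smul_mul_smul_comm, smul_mul_smul_comm, Pt_zig1 hS n j (by omega)]
    congr 1
    by_cases h : Even j
    · have h' : ¬ Even (j + 1) := by simpa [Nat.even_add_one] using h
      simp only [h, h', if_true, if_false]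
      field_simp
    · have h' : Even (j + 1) := by simpa [Nat.even_add_one] using h
      simp only [h, h', if_true, if_false]
      field_simp
  r2 j hj := by
    rw [smul_mul_smul_comm, smul_mul_smul_comm, Pt_zig2 hS n j (by omega)]
    congr 1
    by_cases h : Even j
    · have h' : ¬ Even (j + 1) := by simpa [Nat.even_add_one] using h
      simp only [h, h', if_true, if_false]
      field_simp
    · have h' : Even (j + 1) := by simpa [Nat.even_add_one] using h
      simp only [h, h', if_true, if_false]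
      field_simp
  comm i j hij hj := by
    rw [smul_mul_smul_comm, smul_mul_smul_comm, Pt_comm hS n i j hij (by omega)]
    congr 1
    exact mul_comm _ _

end Pool.Agent.TH389.BW
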